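import Mathlib
import Pool.Agent.MP_2640cc_co.Exact

namespace Pool.Agent.Results.MP_2640cc_co.Exact

open Pool.Agent.MP_2640cc_co

/-- `wsat(2s+j, K_{s,s}) = C(2s+j, 2) - (j+1)(2s-2)` for all `0 ≤ j ≤ s - 3`. -/
theorem result (s j : ℕ) (hj : j + 3 ≤ s) :
    (wsat (2 * s + j) (completeBipartiteGraph (Fin s) (Fin s)) : ℤ) =
      ((2 * s + j).choose 2 : ℕ) - ((j : ℤ) + 1) * (2 * (s : ℤ) - 2) := by
  have h := wsat_exact s j hj
  obtain ⟨a, rfl⟩ : ∃ a, s = a + 1 := ⟨s - 1, by omega⟩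
  rw [show 2 * (a + 1) - 2 = 2 * a by omega] at h
  rw [← h]
  push_cast
  ring

end Pool.Agent.Results.MP_2640cc_co.Exact
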